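import Mathlib
import Pool.Agent.H759R2.Kad.Props7
import Pool.Agent.H235R2.Kad3.Sim
import Pool.Agent.H866R2.Kad3.Transport

/-! Finite type: level bounds by averaging. -/

open scoped ComplexOrder InnerProductSpace ComplexConjugate
open Finset

noncomputable section

namespace H759R2.Kad

universe u v

namespace H672Q12

variable {F : Type u} [CStarAlgebra F] {n : ℕ} {W : Fin n → F} {P : F}

theorem wp (h : Tup W P) (i : Fin n) : W i * P = W i := by
  have h1 : star (W i * P - W i) * (W i * P - W i) = 0 := by
    have h2 : star (W i) * W i = P := by simpa using h.rel i i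
    have h3 : star P = P := h.pr.1
    have h4 : P * P = P := h.pr.2
    rw [star_sub, star_mul, h3]
    calc (P * star (W i) - star (W i)) * (W i * P - W i)
        = P * (star (W i) * W i) * P - P * (star (W i) * W i) - (star (W i) * W i) * P +
          star (W i) * W i := by noncomm_ring
      _ = 0 := by rw [h2, h4, h4]; simp
  have := (CStarRing.star_mul_self_eq_zero_iff _).1 h1
  exact sub_eq_zero.1 this

theorem pws (h : Tup W P) (i : Fin n) : P * star (W i) = star (W i) := by
  have := congrArg star (wp h i)
  rwa [star_mul, h.pr.1] at this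

theorem phi_mul (h : Tup W P) (X Y : CStarMatrix (Fin n) (Fin n) ℂ) :
    ∑ i, ∑ j, (X * Y) i j • (W i * star (W j)) =
      (∑ i, ∑ j, X i j • (W i * star (W j))) * ∑ i, ∑ j, Y i j • (W i * star (W j)) := by
  have key : ∀ i j k l, (X i j • (W i * star (W j))) * (Y k l • (W k * star (W l))) =
      if j = k then (X i j * Y k l) • (W i * star (W l)) else 0 := by
    intro i j k l
    rw [smul_mul_smul_comm]
    have h2 : W i * star (W j) * (W k * star (W l)) = W i * (star (W j) * W k) * star (W l) := by
      simp only [mul_assoc]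
    rw [h2, h.rel j k]
    split_ifs with hjk
    · rw [wp h]
    · simp
  symm
  calc (∑ i, ∑ j, X i j • (W i * star (W j))) * ∑ i, ∑ j, Y i j • (W i * star (W j))
      = ∑ i, ∑ j, ∑ k, ∑ l, (X i j • (W i * star (W j))) * (Y k l • (W k * star (W l))) := by
        simp only [Finset.sum_mul]
        refine Finset.sum_congr rfl fun i _ => Finset.sum_congr rfl fun j _ => ?_
        rw [Finset.mul_sum]
        refine Finset.sum_congr rfl fun k _ => ?_
        rw [Finset.mul_sum]
    _ = ∑ i, ∑ j, ∑ l, (X i j * Y j l) • (W i * star (W l)) := by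
        refine Finset.sum_congr rfl fun i _ => Finset.sum_congr rfl fun j _ => ?_
        simp only [key]
        rw [Finset.sum_eq_single j]
        · simp
        · intro k _ hk
          simp [Ne.symm hk]
        · simp
    _ = ∑ i, ∑ l, (X * Y) i l • (W i * star (W l)) := by
        refine Finset.sum_congr rfl fun i _ => ?_
        rw [Finset.sum_comm]
        refine Finset.sum_congr rfl fun l _ => ?_
        rw [CStarMatrix.mul_apply, Finset.sum_smul]

theorem phi_one (h1 : ∑ i, W i * star (W i) = 1) :
    ∑ i, ∑ j, (1 : CStarMatrix (Fin n) (Fin n) ℂ) i j • (W i * star (W j)) = 1 := by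
  rw [← h1]
  refine Finset.sum_congr rfl fun i _ => ?_
  rw [Finset.sum_eq_single i]
  · simp
  · intro j _ hj
    simp [Ne.symm hj]
  · simp

/-- the representation of the matrices -/
def phi (h : Tup W P) (h1 : ∑ i, W i * star (W i) = 1) :
    CStarMatrix (Fin n) (Fin n) ℂ →⋆ₐ[ℂ] F where
  toFun X := ∑ i, ∑ j, X i j • (W i * star (W j))
  map_one' := phi_one h1
  map_mul' X Y := phi_mul h X Y
  map_zero' := by simp
  map_add' X Y := by simp [add_smul, Finset.sum_add_distrib]
  commutes' c := by
    rw [Algebra.algebraMap_eq_smul_one, Algebra.algebraMap_eq_smul_one]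
    conv_rhs => rw [← phi_one h1]
    rw [Finset.smul_sum]
    refine Finset.sum_congr rfl fun i _ => ?_
    rw [Finset.smul_sum]
    refine Finset.sum_congr rfl fun j _ => ?_
    rw [smul_smul]
    rfl
  map_star' X := by
    simp only [star_sum, star_smul, star_mul, star_star, CStarMatrix.star_apply]
    rw [Finset.sum_comm]

theorem phi_apply (h : Tup W P) (h1 : ∑ i, W i * star (W i) = 1)
    (X : CStarMatrix (Fin n) (Fin n) ℂ) :
    phi h h1 X = ∑ i, ∑ j, X i j • (W i * star (W j)) := rfl

theorem phi_surj (h : Tup W P) (h1 : ∑ i, W i * star (W i) = 1)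
    (hP : ∀ y, ∃ l : ℂ, P * y * P = l • P) : Function.Surjective (phi h h1) := by
  intro y
  choose l hl using hP
  refine ⟨CStarMatrix.ofMatrix fun i j => l (star (W i) * y * W j), ?_⟩
  rw [phi_apply]
  have h2 : ∀ i j, W i * (star (W i) * y * W j) * star (W j) =
      l (star (W i) * y * W j) • (W i * star (W j)) := by
    intro i j
    have h3 : star (W i) * y * W j = P * (star (W i) * y * W j) * P := by
      conv_lhs => rw [← pws h i, ← wp h j]
      simp only [mul_assoc]
    have h4 : star (W i) * y * W j = l (star (W i) * y * W j) • P := by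
      rw [← hl]
      exact h3
    calc W i * (star (W i) * y * W j) * star (W j)
        = W i * (l (star (W i) * y * W j) • P) * star (W j) := by rw [← h4]
      _ = l (star (W i) * y * W j) • (W i * star (W j)) := by
        rw [mul_smul_comm, wp h, smul_mul_assoc]
  have h3 : y = (∑ i, W i * star (W i)) * y * ∑ j, W j * star (W j) := by
    rw [h1]
    simp
  conv_rhs => rw [h3, Finset.sum_mul, Finset.sum_mul]
  refine Finset.sum_congr rfl fun i _ => ?_
  rw [Finset.mul_sum]
  refine Finset.sum_congr rfl fun j _ => ?_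
  change l (star (W i) * y * W j) • (W i * star (W j)) = _
  rw [← h2]
  simp only [mul_assoc]

end H672Q12

open H672Q12 in
theorem prove7_ftcb : Q_ftcb.{u, v} := by
  intro F _ _ _ hFT H _ _ _ w hw c hc hwc m
  obtain ⟨n, W, P, hT, -, hP, h1⟩ := hFT
  have hsurj := phi_surj hT h1 hP
  set φ := phi hT h1 with hφ
  -- the homomorphism of the matrices
  set u0 : CStarMatrix (Fin n) (Fin n) ℂ →ₗ[ℂ] (H →L[ℂ] H) := w ∘ₗ φ.toLinearMap with hu0
  have hu0a : ∀ X, u0 X = w (φ X) := fun X => rfl
  have hHom : IsHom u0 := by
    refine ⟨fun a b => ?_, ?_⟩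
    · rw [hu0a, hu0a, hu0a, map_mul, hw.mul]
    · rw [hu0a, map_one, hw.one]
  have hbd : ∀ X, ‖u0 X‖ ≤ c * ‖X‖ := by
    intro X
    rw [hu0a]
    refine (hwc _).trans (mul_le_mul_of_nonneg_left ?_ (by linarith))
    exact NonUnitalStarAlgHom.norm_apply_le φ X
  obtain ⟨S, S', hSS', hS'S, hS, hS', hst⟩ := prove3_sim.{0, v} ℂ H n u0 hHom c (by linarith) hbd
  have htens : ∀ s : Matrix (Fin n) (Fin n) ℂ, tens s (1 : ℂ) = CStarMatrix.ofMatrix s := by
    intro s
    unfold tens
    congr 1
    funext i j
    simp
  -- the *-homomorphism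
  have hw1 : ∀ y : F, star (S * w y * S') = S * w (star y) * S' := by
    intro y
    obtain ⟨X, rfl⟩ := hsurj y
    have h2 := hst (CStarMatrix.ofMatrix.symm X)
    rw [htens, htens, hu0a, hu0a] at h2
    have e1 : CStarMatrix.ofMatrix (CStarMatrix.ofMatrix.symm X) = X := rfl
    have e2 : CStarMatrix.ofMatrix (star (CStarMatrix.ofMatrix.symm X)) = star X := rfl
    rw [e1, e2, map_star] at h2
    exact h2
  let π : F →⋆ₐ[ℂ] (H →L[ℂ] H) :=
    { toFun := fun y => S * w y * S'
      map_one' := by rw [hw.one, mul_one, hSS']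
      map_mul' := fun a b => by
        rw [hw.mul]
        calc S * (w a * w b) * S' = S * w a * 1 * w b * S' := by simp only [mul_one, mul_assoc]
          _ = S * w a * S' * (S * w b * S') := by rw [← hS'S]; simp only [mul_assoc]
      map_zero' := by simp
      map_add' := fun a b => by rw [map_add, mul_add, add_mul]
      commutes' := fun r => by
        rw [Algebra.algebraMap_eq_smul_one, map_smul, hw.one, mul_smul_comm, smul_mul_assoc,
          mul_one, hSS', Algebra.algebraMap_eq_smul_one]
      map_star' := fun y => (hw1 y).symm }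
  have hlv : LvlBd π.toLinearMap m 1 := by
    intro Y
    rw [one_mul]
    have := NonUnitalStarAlgHom.norm_apply_le (ampHom π (Fin m)) Y
    exact this
  have := prove3_transport.{u, v} F H H w π.toLinearMap (LinearIsometryEquiv.refl ℂ H) S S' c 1
    (by linarith) zero_le_one hS'S hS hS' (fun X ξ => rfl) m hlv
  rwa [mul_one] at this

end H759R2.Kad
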